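import Mathlib
import Pool.Agent.H464R3.Deriv
import Pool.Agent.H464R3.WeakDiv

/-!
Fubini on `ℝ^(m+k)` for test functions.
-/

set_option autoImplicit false

namespace Pool.Agent.Y131.PH

open MeasureTheory Set Filter Topology
open scoped ContDiff
open Pool.Agent.H464R3.Fields Pool.Agent.H464R3.IBP

/-- `ℝ^m` with the Euclidean norm. -/
abbrev RE (m : ℕ) := EuclideanSpace ℝ (Fin m)

variable {m k : ℕ}

/-- splitting of the coordinates -/
noncomputable def ee (m k : ℕ) : RE (m + k) ≃L[ℝ] RE m × RE k := EuclideanSpace.finAddEquivProd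

theorem ee_fst (x : RE (m + k)) (i : Fin m) : (ee m k x).1 i = x (Fin.castAdd k i) := rfl

theorem ee_snd (x : RE (m + k)) (i : Fin k) : (ee m k x).2 i = x (Fin.natAdd m i) := rfl

theorem ee_mp : MeasurePreserving (ee m k) := by
  have h1 := (LinearIsometryEquiv.piLpCongrLeft 2 ℝ ℝ
    (finSumFinEquiv (m := m) (n := k)).symm).measurePreserving
  have h2 := (PiLp.sumPiLpEquivProdLpPiLp 2 (fun _ : Fin m ⊕ Fin k => ℝ)
    : _ ≃ₗᵢ[ℝ] _).measurePreserving
  have h3 := WithLp.volume_preserving_ofLp (RE m) (RE k)
  exact h3.comp (h2.comp h1)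

theorem ee_symm_mp : MeasurePreserving (ee m k).symm := by
  have h := (ee_mp (m := m) (k := k))
  exact h.symm (e := (ee m k).toHomeomorph.toMeasurableEquiv)

/-- the integral vanishes if it vanishes on all slices -/
theorem int_zero (f : RE (m + k) → ℝ) (h : ∀ y, ∫ x, f ((ee m k).symm (x, y)) = 0) :
    ∫ z, f z = 0 := by
  by_cases hf : Integrable f
  · have h1 := (ee_symm_mp (m := m) (k := k)).integral_comp
      (ee m k).symm.toHomeomorph.measurableEmbedding f
    rw [← h1]
    have h2 : Integrable (fun z => f ((ee m k).symm z)) (volume.prod volume) :=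
      (ee_symm_mp (m := m) (k := k)).integrable_comp_of_integrable hf
    have h3 := integral_prod_symm _ h2
    rw [Measure.volume_eq_prod]
    refine h3.trans ?_
    simp [h]
  · exact integral_undef hf

/-- the integral vanishes if it vanishes on all slices in the other direction -/
theorem int_zero' (f : RE (m + k) → ℝ) (h : ∀ x, ∫ y, f ((ee m k).symm (x, y)) = 0) :
    ∫ z, f z = 0 := by
  by_cases hf : Integrable f
  · have h1 := (ee_symm_mp (m := m) (k := k)).integral_comp
      (ee m k).symm.toHomeomorph.measurableEmbedding f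
    rw [← h1]
    have h2 : Integrable (fun z => f ((ee m k).symm z)) (volume.prod volume) :=
      (ee_symm_mp (m := m) (k := k)).integrable_comp_of_integrable hf
    have h3 := integral_prod _ h2
    rw [Measure.volume_eq_prod]
    refine h3.trans ?_
    simp [h]
  · exact integral_undef hf

section slice

variable {φ : RE (m + k) → ℝ}

theorem slice_smooth (hφ : ContDiff ℝ ∞ φ) (y : RE k) :
    ContDiff ℝ ∞ (fun x => φ ((ee m k).symm (x, y))) := by
  refine hφ.comp ((ee m k).symm.contDiff.comp ?_)
  exact contDiff_id.prodMk contDiff_const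

theorem slice_smooth' (hφ : ContDiff ℝ ∞ φ) (x : RE m) :
    ContDiff ℝ ∞ (fun y => φ ((ee m k).symm (x, y))) := by
  refine hφ.comp ((ee m k).symm.contDiff.comp ?_)
  exact contDiff_const.prodMk contDiff_id

theorem slice_compact (hs : HasCompactSupport φ) (y : RE k) :
    HasCompactSupport (fun x => φ ((ee m k).symm (x, y))) := by
  have hK : IsCompact ((fun z => (ee m k z).1) '' tsupport φ) :=
    hs.isCompact.image (continuous_fst.comp (ee m k).continuous)
  refine HasCompactSupport.intro hK ?_
  intro x hx
  by_contra hne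
  refine hx ⟨(ee m k).symm (x, y), subset_tsupport _ hne, ?_⟩
  simp

theorem slice_compact' (hs : HasCompactSupport φ) (x : RE m) :
    HasCompactSupport (fun y => φ ((ee m k).symm (x, y))) := by
  have hK : IsCompact ((fun z => (ee m k z).2) '' tsupport φ) :=
    hs.isCompact.image (continuous_snd.comp (ee m k).continuous)
  refine HasCompactSupport.intro hK ?_
  intro y hy
  by_contra hne
  refine hy ⟨(ee m k).symm (x, y), subset_tsupport _ hne, ?_⟩
  simp

theorem ee_symm_single (i : Fin m) :
    (ee m k).symm (EuclideanSpace.single i 1, 0) = EuclideanSpace.single (Fin.castAdd k i) 1 := by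
  rw [ContinuousLinearEquiv.symm_apply_eq]
  refine Prod.ext ?_ ?_
  · ext j
    rw [ee_fst]
    simp [EuclideanSpace.single_apply]
  · ext j
    rw [ee_snd]
    simp only [PiLp.zero_apply, EuclideanSpace.single_apply]
    rw [if_neg]
    intro h
    have := congrArg Fin.val h
    simp at this
    omega

theorem ee_symm_single' (i : Fin k) :
    (ee m k).symm (0, EuclideanSpace.single i 1) = EuclideanSpace.single (Fin.natAdd m i) 1 := by
  rw [ContinuousLinearEquiv.symm_apply_eq]
  refine Prod.ext ?_ ?_
  · ext j
    rw [ee_fst]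
    simp only [PiLp.zero_apply, EuclideanSpace.single_apply]
    rw [if_neg]
    intro h
    have := congrArg Fin.val h
    simp at this
    omega
  · ext j
    rw [ee_snd]
    simp [EuclideanSpace.single_apply]

theorem slice_deriv (hφ : ContDiff ℝ ∞ φ) (y : RE k) (x : RE m) (i : Fin m) :
    fderiv ℝ (fun x => φ ((ee m k).symm (x, y))) x (EuclideanSpace.single i 1) =
      fderiv ℝ φ ((ee m k).symm (x, y)) (EuclideanSpace.single (Fin.castAdd k i) 1) := by
  have h1 : HasFDerivAt (fun x : RE m => (x, y)) (ContinuousLinearMap.inl ℝ (RE m) (RE k)) x := by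
    exact hasFDerivAt_prodMk_left x y
  have h2 : HasFDerivAt (fun x : RE m => (ee m k).symm (x, y))
      (((ee m k).symm : RE m × RE k →L[ℝ] RE (m + k)).comp
        (ContinuousLinearMap.inl ℝ (RE m) (RE k))) x :=
    ((ee m k).symm : RE m × RE k →L[ℝ] RE (m + k)).hasFDerivAt.comp x h1
  have h3 := ((hφ.differentiable (by simp)) ((ee m k).symm (x, y))).hasFDerivAt.comp x h2
  have h4 : fderiv ℝ (fun x => φ ((ee m k).symm (x, y))) x = _ := h3.fderiv
  rw [h4]
  simp only [ContinuousLinearMap.comp_apply, ContinuousLinearMap.inl_apply,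
    ContinuousLinearEquiv.coe_coe]
  rw [ee_symm_single]

theorem slice_deriv' (hφ : ContDiff ℝ ∞ φ) (x : RE m) (y : RE k) (i : Fin k) :
    fderiv ℝ (fun y => φ ((ee m k).symm (x, y))) y (EuclideanSpace.single i 1) =
      fderiv ℝ φ ((ee m k).symm (x, y)) (EuclideanSpace.single (Fin.natAdd m i) 1) := by
  have h1 : HasFDerivAt (fun y : RE k => (x, y)) (ContinuousLinearMap.inr ℝ (RE m) (RE k)) y := by
    exact hasFDerivAt_prodMk_right x y
  have h2 : HasFDerivAt (fun y : RE k => (ee m k).symm (x, y))
      (((ee m k).symm : RE m × RE k →L[ℝ] RE (m + k)).comp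
        (ContinuousLinearMap.inr ℝ (RE m) (RE k))) y :=
    ((ee m k).symm : RE m × RE k →L[ℝ] RE (m + k)).hasFDerivAt.comp y h1
  have h3 := ((hφ.differentiable (by simp)) ((ee m k).symm (x, y))).hasFDerivAt.comp y h2
  have h4 : fderiv ℝ (fun y => φ ((ee m k).symm (x, y))) y = _ := h3.fderiv
  rw [h4]
  simp only [ContinuousLinearMap.comp_apply, ContinuousLinearMap.inr_apply,
    ContinuousLinearEquiv.coe_coe]
  rw [ee_symm_single']

end slice

/-- the integral of a derivative of a test function -/
theorem int_deriv (φ : RE k → ℝ) (hφ : ContDiff ℝ ∞ φ) (hs : HasCompactSupport φ) (i : Fin k) :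
    ∫ y, fderiv ℝ φ y (EuclideanSpace.single i 1) = 0 := by
  have key := (weak_div (d := k) i.pos (fun j _ => if j = i then 1 else 0) (fun _ _ => 0)
    (fun _ => 0) (fun _ => continuous_const) continuous_const
    (fun x _ j => by
      by_cases hj : j = i
      · simp only [hj, if_true]
        exact hasFDerivAt_const _ _
      · simp only [hj, if_false]
        exact hasFDerivAt_const _ _)
    (fun x _ => by simp) φ hφ hs).2
  simpa using key

theorem integrable_mul_deriv {F : RE (m + k) → ℝ} (hF : Continuous F) {φ : RE (m + k) → ℝ}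
    (hφ : ContDiff ℝ ∞ φ) (hs : HasCompactSupport φ) (v : RE (m + k)) :
    Integrable (fun x => F x * fderiv ℝ φ x v) := by
  have hφ1 : ContDiff ℝ 1 φ := hφ.of_le (by exact_mod_cast le_top)
  have hφ' : Continuous (fderiv ℝ φ) := hφ1.continuous_fderiv (by norm_num)
  have hc : Continuous (fun x => F x * fderiv ℝ φ x v) :=
    hF.mul (hφ'.clm_apply continuous_const)
  refine hc.integrable_of_hasCompactSupport ?_
  have : HasCompactSupport (fun x => fderiv ℝ φ x v) :=
    (hs.fderiv (𝕜 := ℝ)).comp_left (g := fun L : RE (m + k) →L[ℝ] ℝ => L v) (by simp)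
  exact this.mul_left

theorem integrable_mul {F : RE (m + k) → ℝ} (hF : Continuous F) {φ : RE (m + k) → ℝ}
    (hφ : ContDiff ℝ ∞ φ) (hs : HasCompactSupport φ) :
    Integrable (fun x => F x * φ x) := by
  have hc : Continuous (fun x => F x * φ x) := hF.mul hφ.continuous
  exact hc.integrable_of_hasCompactSupport hs.mul_left

end Pool.Agent.Y131.PH
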