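import Mathlib

/-!
Isometric linear maps of the traceless symmetric matrices to `ℝ^n`.
-/

set_option autoImplicit false

namespace Pool.Agent.Y131.PH

open Finset

/-- the traceless symmetric matrices -/
def Sym0 (m : ℕ) : Submodule ℝ (EuclideanSpace ℝ (Fin m × Fin m)) where
  carrier := {S | (∀ i j, S (i, j) = S (j, i)) ∧ ∑ i, S (i, i) = 0}
  add_mem' := by
    rintro a b ⟨h1, h2⟩ ⟨h3, h4⟩
    refine ⟨fun i j => ?_, ?_⟩
    · rw [PiLp.add_apply, PiLp.add_apply, h1, h3]
    · simp only [PiLp.add_apply]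
      rw [sum_add_distrib, h2, h4, add_zero]
  zero_mem' := ⟨fun _ _ => rfl, by simp⟩
  smul_mem' := by
    rintro c a ⟨h1, h2⟩
    refine ⟨fun i j => ?_, ?_⟩
    · rw [PiLp.smul_apply, PiLp.smul_apply, h1]
    · simp only [PiLp.smul_apply]
      rw [← smul_sum, h2, smul_zero]

theorem finrank_Sym0 {m : ℕ} (hm : 0 < m) :
    Module.finrank ℝ (Sym0 m) + 1 ≤ (m + 1).choose 2 := by
  classical
  set l : Fin m := ⟨0, hm⟩
  have hout : ∀ i j : Fin m, (Quot.out s(i, j)) = (i, j) ∨ (Quot.out s(i, j)) = (j, i) := by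
    intro i j
    have h : s((Quot.out s(i, j)).1, (Quot.out s(i, j)).2) = s(i, j) := Quot.out_eq _
    rw [Sym2.eq_iff] at h
    rcases h with ⟨h1, h2⟩ | ⟨h1, h2⟩
    · left; exact Prod.ext h1 h2
    · right; exact Prod.ext h1 h2
  let L : Sym0 m →ₗ[ℝ] ({s : Sym2 (Fin m) // s ≠ s(l, l)} → ℝ) :=
    { toFun := fun S s => (S : EuclideanSpace ℝ (Fin m × Fin m)) (Quot.out s.1)
      map_add' := fun a b => by funext s; rfl
      map_smul' := fun c a => by funext s; rfl }
  have hinj : Function.Injective L := by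
    rw [← LinearMap.ker_eq_bot, LinearMap.ker_eq_bot']
    rintro ⟨S, hS1, hS2⟩ hL
    have h1 : ∀ i j : Fin m, s(i, j) ≠ s(l, l) → S (i, j) = 0 := by
      intro i j hij
      have h2 := congrFun hL ⟨s(i, j), hij⟩
      change S (Quot.out s(i, j)) = 0 at h2
      rcases hout i j with h | h
      · rwa [h] at h2
      · rw [h] at h2
        rw [hS1 i j]
        exact h2
    have h2 : S (l, l) = 0 := by
      rw [← hS2]
      symm
      refine sum_eq_single l ?_ ?_
      · intro i _ hi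
        apply h1
        intro h
        rw [Sym2.eq_iff] at h
        rcases h with h | h
        · exact hi h.1
        · exact hi h.1
      · intro h
        exact absurd (mem_univ l) h
    refine Subtype.ext ?_
    ext ⟨i, j⟩
    by_cases h : s(i, j) = s(l, l)
    · rw [Sym2.eq_iff] at h
      rcases h with ⟨rfl, rfl⟩ | ⟨rfl, rfl⟩
      · exact h2
      · exact h2
    · exact h1 i j h
  have h1 := LinearMap.finrank_le_finrank_of_injective hinj
  rw [Module.finrank_fintype_fun_eq_card] at h1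
  have h2 : Fintype.card {s : Sym2 (Fin m) // s ≠ s(l, l)} + 1 = Fintype.card (Sym2 (Fin m)) := by
    rw [Fintype.card_subtype_compl, Fintype.card_subtype_eq]
    have : 0 < Fintype.card (Sym2 (Fin m)) := Fintype.card_pos_iff.2 ⟨s(l, l)⟩
    omega
  rw [Sym2.card, Fintype.card_fin] at h2
  omega

/-- an isometric linear map of the traceless symmetric matrices to `ℝ^n` -/
theorem exists_T {m n : ℕ} (hm : 0 < m) (hn : (m + 1).choose 2 ≤ n + 1) :
    ∃ T : Fin n → Fin m → Fin m → ℝ, ∀ S : Fin m → Fin m → ℝ, (∀ i j, S i j = S j i) →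
      ∑ i, S i i = 0 → ∑ α, (∑ a, ∑ b, T α a b * S a b) ^ 2 = ∑ a, ∑ b, S a b ^ 2 := by
  classical
  have hr := finrank_Sym0 hm
  set r := Module.finrank ℝ (Sym0 m) with hrdef
  have hrn : r ≤ n := by omega
  let b : OrthonormalBasis (Fin r) ℝ (Sym0 m) := stdOrthonormalBasis ℝ (Sym0 m)
  refine ⟨fun α a c => if h : α.val < r then
    ((b ⟨α.val, h⟩ : Sym0 m) : EuclideanSpace ℝ (Fin m × Fin m)) (a, c) else 0, ?_⟩
  intro S hS1 hS2
  let W : Sym0 m := ⟨WithLp.toLp 2 fun p => S p.1 p.2, hS1, hS2⟩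
  have key := b.sum_sq_norm_inner_right W
  have hn2 : ‖W‖ ^ 2 = ∑ a, ∑ c, S a c ^ 2 := by
    change ‖(W : EuclideanSpace ℝ (Fin m × Fin m))‖ ^ 2 = _
    rw [EuclideanSpace.norm_sq_eq, Fintype.sum_prod_type]
    refine sum_congr rfl fun a _ => sum_congr rfl fun c _ => ?_
    rw [Real.norm_eq_abs, sq_abs]
  have hin : ∀ i : Fin r, ‖inner ℝ (b i) W‖ ^ 2 =
      (∑ a, ∑ c, ((b i : Sym0 m) : EuclideanSpace ℝ (Fin m × Fin m)) (a, c) * S a c) ^ 2 := by
    intro i
    rw [Real.norm_eq_abs, sq_abs]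
    congr 1
    change inner ℝ ((b i : Sym0 m) : EuclideanSpace ℝ (Fin m × Fin m))
      (W : EuclideanSpace ℝ (Fin m × Fin m)) = _
    rw [PiLp.inner_apply, Fintype.sum_prod_type]
    refine sum_congr rfl fun a _ => sum_congr rfl fun c _ => ?_
    change S a c * _ = _
    exact mul_comm _ _
  rw [← hn2, ← key]
  simp only [hin]
  -- the sum over `Fin n`
  obtain ⟨t, rfl⟩ : ∃ t, n = r + t := ⟨n - r, by omega⟩
  rw [Fin.sum_univ_add]
  have h0 : ∀ i : Fin t, (∑ a, ∑ c, (if h : (Fin.natAdd r i).val < r then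
    ((b ⟨(Fin.natAdd r i).val, h⟩ : Sym0 m) : EuclideanSpace ℝ (Fin m × Fin m)) (a, c) else 0) *
      S a c) ^ 2 = 0 := by
    intro i
    have : ¬ (Fin.natAdd r i).val < r := by simp
    simp [this]
  rw [sum_congr rfl fun i _ => h0 i, sum_const_zero, add_zero]
  refine sum_congr rfl fun i _ => ?_
  congr 1
  refine sum_congr rfl fun a _ => sum_congr rfl fun c _ => ?_
  rw [dif_pos (by simp : (Fin.castAdd t i).val < r)]
  rfl

end Pool.Agent.Y131.PH
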