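import Mathlib
import Pool.Agent.Y131.PH.Fub
import Pool.Agent.Y131.PH.Iso

/-!
The `p`-harmonic maps `|x'|^(2μ) ι (x' ⊗ x' - |x'|^2 I / m)` on `ℝ^(m+k)`, `x'` the first `m`
coordinates, `ι` an isometric linear map of the traceless symmetric matrices to `ℝ^n`.
-/

set_option autoImplicit false

namespace Pool.Agent.Y131.PH

open MeasureTheory Set Filter Topology
open scoped ContDiff
open Pool.Agent.H464R3.Fields Pool.Agent.H464R3.IBP

/-- Real `n × d` matrices with the Frobenius norm. -/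
abbrev Mat (n d : ℕ) := EuclideanSpace ℝ (Fin n × Fin d)

variable {m k n : ℕ}

theorem Fld_symm (a ν : ℝ) (x : RE m) (i j l : Fin m) : Fld a ν x i j l = Fld a ν x j i l := by
  have h1 : q x i j = q x j i := by
    unfold q
    by_cases h : i = j
    · subst h; rfl
    · rw [if_neg h, if_neg (Ne.symm h), mul_comm]
  have h2 : Dq x i j l = Dq x j i l := by
    unfold Dq
    by_cases h : i = j
    · subst h; rfl
    · rw [if_neg h, if_neg (Ne.symm h)]
      ring
  unfold Fld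
  rw [h1, h2]

theorem Fld_trace (hm : 0 < m) (a ν : ℝ) (x : RE m) (l : Fin m) : ∑ i, Fld a ν x i i l = 0 := by
  have hm' : (m : ℝ) ≠ 0 := by positivity
  have h1 : ∑ i, q x i i = 0 := by
    unfold q
    simp only [if_true, Finset.sum_sub_distrib, sum_sq]
    simp only [Finset.sum_const, Finset.card_univ, Fintype.card_fin, nsmul_eq_mul]
    field_simp
    ring
  have h2 : ∑ i, Dq x i i l = 0 := by
    unfold Dq
    simp only [if_true, Finset.sum_sub_distrib, Finset.sum_add_distrib, Finset.sum_ite_eq',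
      Finset.mem_univ]
    simp only [Finset.sum_const, Finset.card_univ, Fintype.card_fin, nsmul_eq_mul]
    field_simp
    ring
  unfold Fld
  rw [Finset.sum_add_distrib, ← Finset.mul_sum, ← Finset.mul_sum, h1, h2]
  ring

/-- the map -/
noncomputable def hm (k : ℕ) (T : Fin n → Fin m → Fin m → ℝ) (μ : ℝ) (x : RE (m + k)) : RE n :=
  WithLp.toLp 2 fun α => ∑ a, ∑ b, T α a b * H μ (ee m k x).1 a b

/-- the field -/
noncomputable def Gf (T : Fin n → Fin m → Fin m → ℝ) (a ν : ℝ) (x : RE m) (α : Fin n)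
    (j : Fin m) : ℝ := ∑ s, ∑ t, T α s t * Fld a ν x s t j

/-- its gradient -/
noncomputable def Gm (k : ℕ) (T : Fin n → Fin m → Fin m → ℝ) (μ : ℝ) (x : RE (m + k)) :
    Mat n (m + k) :=
  WithLp.toLp 2 fun β => Fin.addCases (motive := fun _ => ℝ)
    (fun j => Gf T (2 * μ) μ (ee m k x).1 β.1 j) (fun _ => 0) β.2

theorem Gm_left (T : Fin n → Fin m → Fin m → ℝ) (μ : ℝ) (x : RE (m + k)) (α : Fin n)
    (j : Fin m) : Gm k T μ x (α, Fin.castAdd k j) = Gf T (2 * μ) μ (ee m k x).1 α j := by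
  unfold Gm
  simp

theorem Gm_right (T : Fin n → Fin m → Fin m → ℝ) (μ : ℝ) (x : RE (m + k)) (α : Fin n)
    (j : Fin k) : Gm k T μ x (α, Fin.natAdd m j) = 0 := by
  unfold Gm
  simp

/-- the constant in the norm of the gradient -/
noncomputable def Kc (d : ℕ) (μ : ℝ) : ℝ :=
  (1 - 1 / d) * ((2 * μ) ^ 2 + 4 * (2 * μ) + 2 * (d + 2))

lemma Kc_pos (hd : 3 ≤ m) {μ : ℝ} (hμ : 0 < μ) : 0 < Kc m μ := by
  unfold Kc
  have hd' : (3 : ℝ) ≤ m := by exact_mod_cast hd
  apply mul_pos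
  · have : 1 / (m : ℝ) ≤ 1 / 3 := one_div_le_one_div_of_le (by norm_num) hd'
    linarith
  · positivity

/-- the isometry property -/
def IsIso (T : Fin n → Fin m → Fin m → ℝ) : Prop :=
  ∀ S : Fin m → Fin m → ℝ, (∀ i j, S i j = S j i) →
    ∑ i, S i i = 0 → ∑ α, (∑ a, ∑ b, T α a b * S a b) ^ 2 = ∑ a, ∑ b, S a b ^ 2

theorem sum_Gf_sq {T : Fin n → Fin m → Fin m → ℝ} (hT : IsIso T) (hd : 0 < m) (a ν : ℝ)
    (hν : 0 < 2 * ν + 1) (x : RE m) :
    ∑ α, ∑ j, Gf T a ν x α j ^ 2 =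
      ((1 - 1 / m) * (a ^ 2 + 4 * a + 2 * (m + 2))) * (‖x‖ ^ 2) ^ (2 * ν + 1) := by
  rw [← sum_Fld_sq hd a ν hν x, Finset.sum_comm]
  have h1 : ∀ j, ∑ α, Gf T a ν x α j ^ 2 = ∑ s, ∑ t, Fld a ν x s t j ^ 2 := fun j =>
    hT (fun s t => Fld a ν x s t j) (fun s t => Fld_symm a ν x s t j) (Fld_trace hd a ν x j)
  rw [Finset.sum_congr rfl fun j _ => h1 j, Finset.sum_comm]
  refine Finset.sum_congr rfl fun s _ => ?_
  exact Finset.sum_comm

/-- the squared norm of the fields is as for the Veronese map -/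
def IsEig (T : Fin n → Fin m → Fin m → ℝ) : Prop :=
  ∀ a ν : ℝ, 0 < 2 * ν + 1 → ∀ x : RE m, ∑ α, ∑ j, Gf T a ν x α j ^ 2 =
      ((1 - 1 / m) * (a ^ 2 + 4 * a + 2 * (m + 2))) * (‖x‖ ^ 2) ^ (2 * ν + 1)

theorem IsIso.isEig {T : Fin n → Fin m → Fin m → ℝ} (hT : IsIso T) (hd : 0 < m) : IsEig T :=
  fun a ν hν x => sum_Gf_sq hT hd a ν hν x

theorem isEig_of {T : Fin n → Fin m → Fin m → ℝ}
    (h0 : ∀ x : RE m, ∑ α, (∑ s, ∑ t, T α s t * q x s t) ^ 2 = (1 - 1 / m) * (‖x‖ ^ 2) ^ 2)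
    (h1 : ∀ x : RE m, ∑ α, ∑ j, (∑ s, ∑ t, T α s t * Dq x s t j) ^ 2 =
      (1 - 1 / m) * (2 * (m + 2)) * ‖x‖ ^ 2) : IsEig T := by
  intro a ν hν x
  by_cases hx : x = 0
  · subst hx
    unfold Gf
    simp only [Fld_zero, mul_zero, Finset.sum_const_zero]
    simp [Real.zero_rpow hν.ne']
  have hN : 0 < ‖x‖ ^ 2 := by positivity
  set N := ‖x‖ ^ 2 with hNdef
  set Q : Fin n → ℝ := fun α => ∑ s, ∑ t, T α s t * q x s t with hQ
  set D : Fin n → Fin m → ℝ := fun α j => ∑ s, ∑ t, T α s t * Dq x s t j with hD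
  have hxD : ∀ α, ∑ j, x j * D α j = 2 * Q α := by
    intro α
    simp only [hD, hQ, Finset.mul_sum]
    rw [Finset.sum_comm]
    refine Finset.sum_congr rfl fun s _ => ?_
    rw [Finset.sum_comm]
    refine Finset.sum_congr rfl fun t _ => ?_
    have := sum_x_Dq x s t
    have e : ∀ j, x j * (T α s t * Dq x s t j) = T α s t * (x j * Dq x s t j) := fun j => by ring
    rw [Finset.sum_congr rfl fun j _ => e j, ← Finset.mul_sum, this]
    ring
  have hG : ∀ α j, Gf T a ν x α j = a * N ^ (ν - 1) * x j * Q α + N ^ ν * D α j := by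
    intro α j
    unfold Gf Fld
    simp only [hQ, hD, Finset.mul_sum]
    rw [← Finset.sum_add_distrib]
    refine Finset.sum_congr rfl fun s _ => ?_
    rw [← Finset.sum_add_distrib]
    refine Finset.sum_congr rfl fun t _ => ?_
    ring
  have e1 : ∀ α j, Gf T a ν x α j ^ 2 =
      (a ^ 2 * (N ^ (ν - 1)) ^ 2) * (Q α ^ 2 * (x j * x j))
      + (2 * a * N ^ (ν - 1) * N ^ ν) * (Q α * (x j * D α j))
      + (N ^ ν) ^ 2 * (D α j ^ 2) := by
    intro α j
    rw [hG]
    ring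
  simp only [e1, Finset.sum_add_distrib, ← Finset.mul_sum]
  rw [sum_sq x]
  simp only [hxD]
  have e2 : ∑ α, Q α * (2 * Q α) = 2 * ((1 - 1 / m) * N ^ 2) := by
    rw [← h0 x, Finset.mul_sum]
    refine Finset.sum_congr rfl fun α _ => ?_
    ring
  have e3 : ∑ α, Q α ^ 2 * ‖x‖ ^ 2 = (1 - 1 / m) * N ^ 2 * N := by
    rw [← Finset.sum_mul, h0 x]
  rw [e2, e3, h1 x]
  have r1 : (N ^ (ν - 1)) ^ 2 * N ^ 3 = N ^ (2 * ν + 1) := by
    rw [← Real.rpow_natCast N 3, ← Real.rpow_natCast (N ^ (ν - 1)) 2, ← Real.rpow_mul hN.le,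
      ← Real.rpow_add hN]
    congr 1
    push_cast; ring
  have r2 : N ^ (ν - 1) * N ^ ν * N ^ 2 = N ^ (2 * ν + 1) := by
    rw [← Real.rpow_natCast N 2, ← Real.rpow_add hN, ← Real.rpow_add hN]
    congr 1
    push_cast; ring
  have r3 : (N ^ ν) ^ 2 * N = N ^ (2 * ν + 1) := by
    rw [← Real.rpow_natCast (N ^ ν) 2, ← Real.rpow_mul hN.le]
    nth_rewrite 2 [← Real.rpow_one N]
    rw [← Real.rpow_add hN]
    congr 1
    push_cast; ring
  calc _ = (1 - 1 / m) * a ^ 2 * ((N ^ (ν - 1)) ^ 2 * N ^ 3)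
        + (1 - 1 / m) * (4 * a) * (N ^ (ν - 1) * N ^ ν * N ^ 2)
        + (1 - 1 / m) * (2 * (m + 2)) * ((N ^ ν) ^ 2 * N) := by ring
    _ = _ := by rw [r1, r2, r3]; ring

/-- the Hopf map -/
noncomputable def hopfT (t : ℕ) (α : Fin (3 + t)) (i j : Fin 4) : ℝ :=
  (√3 / 2) * (if α.val = 0 then (if i.val = j.val then (if i.val < 2 then 1 else -1) else 0)
    else if α.val = 1 then (if (i.val = 0 ∧ j.val = 2) ∨ (i.val = 2 ∧ j.val = 0) ∨
      (i.val = 1 ∧ j.val = 3) ∨ (i.val = 3 ∧ j.val = 1) then 1 else 0)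
    else if α.val = 2 then (if (i.val = 0 ∧ j.val = 3) ∨ (i.val = 3 ∧ j.val = 0) then 1 else
      if (i.val = 1 ∧ j.val = 2) ∨ (i.val = 2 ∧ j.val = 1) then -1 else 0) else 0)

theorem hopf_sum (t : ℕ) (S : Fin 4 → Fin 4 → ℝ) :
    ∑ α, (∑ s, ∑ u, hopfT t α s u * S s u) ^ 2 = 3 / 4 * ((S 0 0 + S 1 1 - S 2 2 - S 3 3) ^ 2 +
      (S 0 2 + S 2 0 + S 1 3 + S 3 1) ^ 2 + (S 0 3 + S 3 0 - S 1 2 - S 2 1) ^ 2) := by
  have h3 : (√3 : ℝ) ^ 2 = 3 := Real.sq_sqrt (by norm_num)
  have hz : ∀ (i : Fin t) (a b : Fin 4), hopfT t (Fin.natAdd 3 i) a b = 0 := by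
    intro i a b
    unfold hopfT
    have e0 : ¬ (Fin.natAdd 3 i).val = 0 := by simp
    have e1 : ¬ (Fin.natAdd 3 i).val = 1 := by simp; omega
    have e2 : ¬ (Fin.natAdd 3 i).val = 2 := by simp; omega
    rw [if_neg e0, if_neg e1, if_neg e2, mul_zero]
  rw [Fin.sum_univ_add]
  simp only [hz, zero_mul, Finset.sum_const_zero, ne_eq, OfNat.ofNat_ne_zero,
      not_false_eq_true, zero_pow, add_zero]
  rw [Fin.sum_univ_three]
  have v0 : (Fin.castAdd t (0 : Fin 3)).val = 0 := rfl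
  have v1 : (Fin.castAdd t (1 : Fin 3)).val = 1 := rfl
  have v2 : (Fin.castAdd t (2 : Fin 3)).val = 2 := rfl
  simp only [hopfT, v0, v1, v2, Fin.sum_univ_four]
  have w0 : (0 : Fin 4).val = 0 := rfl
  have w1 : (1 : Fin 4).val = 1 := rfl
  have w2 : (2 : Fin 4).val = 2 := rfl
  have w3 : (3 : Fin 4).val = 3 := rfl
  simp only [w0, w1, w2, w3]
  norm_num
  linear_combination (((S 0 0 + S 1 1 - S 2 2 - S 3 3) ^ 2 +
      (S 0 2 + S 2 0 + S 1 3 + S 3 1) ^ 2 + (S 0 3 + S 3 0 - S 1 2 - S 2 1) ^ 2) / 4) * h3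

theorem hopf_isEig (t : ℕ) : IsEig (hopfT t) := by
  apply isEig_of
  · intro x
    rw [hopf_sum t (fun s u => q x s u)]
    have hs := sum_sq x
    rw [Fin.sum_univ_four] at hs
    unfold q
    rw [← hs]
    simp
    ring
  · intro x
    rw [Finset.sum_comm]
    rw [Finset.sum_congr rfl fun j _ => hopf_sum t (fun s u => Dq x s u j)]
    have hs := sum_sq x
    rw [Fin.sum_univ_four] at hs
    rw [Fin.sum_univ_four, ← hs]
    unfold Dq
    simp
    ring

theorem norm_Gm_sq {T : Fin n → Fin m → Fin m → ℝ} (hT : IsEig T) (hd : 0 < m) {μ : ℝ}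
    (hμ : 0 < μ) (x : RE (m + k)) :
    ‖Gm k T μ x‖ ^ 2 = Kc m μ * (‖(ee m k x).1‖ ^ 2) ^ (2 * μ + 1) := by
  unfold Kc
  rw [← hT (2 * μ) μ (by linarith), EuclideanSpace.norm_sq_eq,
    Fintype.sum_prod_type]
  refine Finset.sum_congr rfl fun α _ => ?_
  rw [Fin.sum_univ_add]
  have h0 : ∀ j : Fin k, ‖Gm k T μ x (α, Fin.natAdd m j)‖ ^ 2 = 0 := by
    intro j
    rw [Gm_right, norm_zero]
    norm_num
  rw [Finset.sum_congr rfl fun j _ => h0 j, Finset.sum_const_zero, add_zero]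
  refine Finset.sum_congr rfl fun j _ => ?_
  rw [Gm_left, Real.norm_eq_abs, sq_abs]

theorem norm_Gm {T : Fin n → Fin m → Fin m → ℝ} (hT : IsEig T) (hd : 0 < m) {μ : ℝ}
    (hμ : 0 < μ) (x : RE (m + k)) :
    ‖Gm k T μ x‖ = (Kc m μ * (‖(ee m k x).1‖ ^ 2) ^ (2 * μ + 1)) ^ (1 / 2 : ℝ) := by
  rw [← norm_Gm_sq hT hd hμ x, ← Real.sqrt_eq_rpow, Real.sqrt_sq (norm_nonneg _)]

theorem Gf_zero (T : Fin n → Fin m → Fin m → ℝ) (a ν : ℝ) (α : Fin n) (j : Fin m) :
    Gf T a ν 0 α j = 0 := by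
  unfold Gf
  simp [Fld_zero]

theorem Gf_neg (T : Fin n → Fin m → Fin m → ℝ) (a ν : ℝ) (x : RE m) (α : Fin n) (j : Fin m) :
    Gf T a ν (-x) α j = - Gf T a ν x α j := by
  unfold Gf
  simp only [Fld_neg, mul_neg, Finset.sum_neg_distrib]

theorem Gm_ext {T : Fin n → Fin m → Fin m → ℝ} {μ : ℝ} {x : RE (m + k)} {M : Mat n (m + k)}
    (h1 : ∀ α j, Gf T (2 * μ) μ (ee m k x).1 α j = M (α, Fin.castAdd k j))
    (h2 : ∀ α j, M (α, Fin.natAdd m j) = 0) : Gm k T μ x = M := by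
  ext ⟨α, i⟩
  refine Fin.addCases (fun j => ?_) (fun j => ?_) i
  · rw [Gm_left, h1]
  · rw [Gm_right, h2]

theorem Gm_neg (T : Fin n → Fin m → Fin m → ℝ) (μ : ℝ) (x : RE (m + k)) :
    Gm k T μ (-x) = - Gm k T μ x := by
  refine Gm_ext (fun α j => ?_) (fun α j => ?_)
  · rw [map_neg, PiLp.neg_apply, Gm_left]
    exact Gf_neg _ _ _ _ _ _
  · rw [PiLp.neg_apply, Gm_right, neg_zero]

theorem Gm_zero (T : Fin n → Fin m → Fin m → ℝ) (μ : ℝ) {x : RE (m + k)}
    (hx : (ee m k x).1 = 0) : Gm k T μ x = 0 := by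
  refine Gm_ext (fun α j => ?_) (fun α j => ?_)
  · rw [hx, Gf_zero]
    rfl
  · rfl

theorem Gm_congr (T : Fin n → Fin m → Fin m → ℝ) (μ : ℝ) {x y : RE (m + k)}
    (h : (ee m k x).1 = (ee m k y).1) : Gm k T μ x = Gm k T μ y := by
  refine Gm_ext (fun α j => ?_) (fun α j => ?_)
  · rw [h, Gm_left]
  · rw [Gm_right]

/-- `|G|^(p-2) G` is a field of the same type. -/
theorem A_Gm {T : Fin n → Fin m → Fin m → ℝ} (hT : IsEig T) (hd : 3 ≤ m) {μ : ℝ} (hμ : 0 < μ)
    (p : ℝ) (x : RE (m + k)) (α : Fin n) (j : Fin m) :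
    ‖Gm k T μ x‖ ^ (p - 2) * Gm k T μ x (α, Fin.castAdd k j) = (Kc m μ) ^ ((p - 2) / 2) *
      Gf T (2 * μ) (μ + (μ + 1 / 2) * (p - 2)) (ee m k x).1 α j := by
  by_cases hx : (ee m k x).1 = 0
  · rw [Gm_zero T μ hx, hx, Gf_zero]
    simp
  have hN : 0 < ‖(ee m k x).1‖ ^ 2 := by
    have := norm_pos_iff.2 hx
    positivity
  have hK := Kc_pos hd hμ
  have h1 : ‖Gm k T μ x‖ ^ (p - 2) = (Kc m μ) ^ ((p - 2) / 2) *
      (‖(ee m k x).1‖ ^ 2) ^ ((μ + 1 / 2) * (p - 2)) := by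
    rw [norm_Gm hT (by omega) hμ, ← Real.rpow_mul (by positivity),
      Real.mul_rpow hK.le (by positivity), ← Real.rpow_mul hN.le]
    congr 2 <;> ring
  rw [h1, Gm_left, mul_assoc]
  congr 1
  unfold Gf
  rw [Finset.mul_sum]
  refine Finset.sum_congr rfl fun s _ => ?_
  rw [Finset.mul_sum]
  refine Finset.sum_congr rfl fun t _ => ?_
  unfold Fld
  set N := ‖(ee m k x).1‖ ^ 2 with hNd
  have e1 : N ^ ((μ + 1 / 2) * (p - 2)) * N ^ (μ - 1)
      = N ^ (μ + (μ + 1 / 2) * (p - 2) - 1) := by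
    rw [← Real.rpow_add hN]; congr 1; ring
  have e2 : N ^ ((μ + 1 / 2) * (p - 2)) * N ^ μ
      = N ^ (μ + (μ + 1 / 2) * (p - 2)) := by
    rw [← Real.rpow_add hN]; congr 1; ring
  rw [← e1, ← e2]
  ring

theorem norm_V_Gm {T : Fin n → Fin m → Fin m → ℝ} (hT : IsEig T) (hd : 3 ≤ m) {μ : ℝ}
    (hμ : 0 < μ) {p : ℝ} (hp : 0 < p) (x : RE (m + k)) :
    ‖‖Gm k T μ x‖ ^ ((p - 2) / 2) • Gm k T μ x‖ =
      (Kc m μ) ^ (p / 4) * ‖(ee m k x).1‖ ^ ((2 * μ + 1) * p / 2) := by
  have hK := Kc_pos hd hμ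
  by_cases hx : (ee m k x).1 = 0
  · rw [Gm_zero T μ hx, hx]
    have : (2 * μ + 1) * p / 2 ≠ 0 := by positivity
    simp [Real.zero_rpow this]
  have hN : 0 < ‖(ee m k x).1‖ := norm_pos_iff.2 hx
  have hG : 0 < ‖Gm k T μ x‖ := by
    rw [norm_Gm hT (by omega) hμ]; positivity
  rw [norm_smul, Real.norm_of_nonneg (by positivity)]
  have h1 : ‖Gm k T μ x‖ ^ ((p - 2) / 2) * ‖Gm k T μ x‖ = ‖Gm k T μ x‖ ^ (p / 2) := by
    nth_rewrite 2 [← Real.rpow_one ‖Gm k T μ x‖]
    rw [← Real.rpow_add hG]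
    congr 1; ring
  rw [h1, norm_Gm hT (by omega) hμ, ← Real.rpow_mul (by positivity),
      Real.mul_rpow hK.le (by positivity), ← Real.rpow_mul (by positivity),
      ← Real.rpow_natCast ‖(ee m k x).1‖ 2, ← Real.rpow_mul hN.le]
  congr 2 <;> push_cast <;> ring

theorem continuous_Gf (hd : 0 < m) (T : Fin n → Fin m → Fin m → ℝ) (a ν : ℝ)
    (hν : 0 < 2 * ν + 1) (α : Fin n) (j : Fin m) : Continuous (fun x => Gf T a ν x α j) := by
  unfold Gf
  refine continuous_finsetSum _ fun s _ => continuous_finsetSum _ fun t _ => ?_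
  exact continuous_const.mul (continuous_Fld hd _ _ hν _ _ _)

theorem continuous_fst_ee : Continuous (fun x : RE (m + k) => (ee m k x).1) :=
  continuous_fst.comp (ee m k).continuous

theorem continuous_Gm (hd : 0 < m) (T : Fin n → Fin m → Fin m → ℝ) {μ : ℝ} (hμ : 0 < μ) :
    Continuous (Gm k T μ) := by
  unfold Gm
  refine (PiLp.continuous_toLp 2 _).comp ?_
  refine continuous_pi fun β => ?_
  obtain ⟨α, i⟩ := β
  refine Fin.addCases (fun j => ?_) (fun j => ?_) i
  · simp only [Fin.addCases_left]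
    exact (continuous_Gf hd T _ _ (by linarith) α j).comp continuous_fst_ee
  · simp only [Fin.addCases_right]
    exact continuous_const

theorem continuous_hm (T : Fin n → Fin m → Fin m → ℝ) {μ : ℝ} (hμ : 0 < μ) :
    Continuous (hm k T μ) := by
  unfold hm
  refine (PiLp.continuous_toLp 2 _).comp ?_
  refine continuous_pi fun α => ?_
  refine continuous_finsetSum _ fun s _ => continuous_finsetSum _ fun t _ => ?_
  exact continuous_const.mul ((continuous_H hμ.le _ _).comp continuous_fst_ee)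

/-- first identity in `ℝ^m` -/
theorem id_grad (hd : 0 < m) {μ : ℝ} (hμ : 0 < μ) (s t i : Fin m) (φ : RE m → ℝ)
    (hφ : ContDiff ℝ ∞ φ) (hs : HasCompactSupport φ) :
    Integrable (fun x => H μ x s t * fderiv ℝ φ x (EuclideanSpace.single i 1)) ∧
    ∫ x, H μ x s t * fderiv ℝ φ x (EuclideanSpace.single i 1) =
      - ∫ x, Fld (2 * μ) μ x s t i * φ x := by
  have key := weak_div hd
      (fun k x => if k = i then H μ x s t else 0)
      (fun k x => if k = i then (‖x‖ ^ 2) ^ μ • Lq x s t + q x s t • LN μ x else 0)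
      (fun x => Fld (2 * μ) μ x s t i)
      (fun k => by
        by_cases hk : k = i
        · simp only [hk, if_true]; exact continuous_H hμ.le _ _
        · simp only [hk, if_false]; exact continuous_const)
      (continuous_Fld hd _ _ (by linarith) _ _ _)
      (fun x hx k => by
        by_cases hk : k = i
        · simp only [hk, if_true]; exact hasFDerivAt_H μ hx _ _
        · simp only [hk, if_false]; exact hasFDerivAt_const _ _)
      (fun x hx => by
        rw [Finset.sum_eq_single i]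
        · simp only [if_true]
          exact H_deriv_single μ x _ _ _
        · intro k _ hk
          simp [hk]
        · simp)
      φ hφ hs
  have e : ∀ x, ∑ k, (if k = i then H μ x s t else 0) *
      fderiv ℝ φ x (EuclideanSpace.single k 1)
      = H μ x s t * fderiv ℝ φ x (EuclideanSpace.single i 1) := by
    intro x
    rw [Finset.sum_eq_single i]
    · simp
    · intro k _ hk
      simp [hk]
    · simp
  simp only [e] at key
  exact key

/-- second identity in `ℝ^m` -/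
theorem id_div (hd : 3 ≤ m) {p μ : ℝ} (hp1 : 1 < p) (hμ : 0 < μ)
    (hroot : 2 * (p - 1) * μ ^ 2 + (3 * p - 4 + m) * μ - (2 - p) = 0) (s t : Fin m)
    (φ : RE m → ℝ) (hφ : ContDiff ℝ ∞ φ) (hs : HasCompactSupport φ) :
    Integrable (fun x => ∑ i : Fin m, Fld (2 * μ) (μ + (μ + 1 / 2) * (p - 2)) x s t i *
      fderiv ℝ φ x (EuclideanSpace.single i 1)) ∧
    ∫ x, ∑ i : Fin m, Fld (2 * μ) (μ + (μ + 1 / 2) * (p - 2)) x s t i *
      fderiv ℝ φ x (EuclideanSpace.single i 1) = 0 := by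
  have hd0 : 0 < m := by omega
  set ν : ℝ := μ + (μ + 1 / 2) * (p - 2) with hν
  have hν1 : 0 < 2 * ν + 1 := by
    have : 2 * ν + 1 = (2 * μ + 1) * (p - 1) := by rw [hν]; ring
    rw [this]
    apply mul_pos <;> linarith
  have hdiv0 : (2 * μ) * (2 * ν + m) + 4 * ν = 0 := by
    rw [hν]
    linear_combination 2 * hroot
  have key := weak_div hd0
    (fun k x => Fld (2 * μ) ν x s t k)
    (fun k x => LF (2 * μ) ν x s t k)
    (fun _ => 0)
    (fun k => continuous_Fld hd0 _ _ hν1 _ _ _) continuous_const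
    (fun x hx k => hasFDerivAt_Fld _ _ hx _ _ _)
    (fun x hx => by
      rw [sum_LF_single hd0 _ _ hx, hdiv0, zero_mul])
    φ hφ hs
  refine ⟨key.1, ?_⟩
  rw [key.2]
  simp

/-- the weak gradient -/
theorem weak_grad (hd : 0 < m) (T : Fin n → Fin m → Fin m → ℝ) {μ : ℝ} (hμ : 0 < μ)
    (φ : RE (m + k) → ℝ) (hφ : ContDiff ℝ ∞ φ) (hs : HasCompactSupport φ) (α : Fin n)
    (i : Fin (m + k)) :
    ∫ x, hm k T μ x α * fderiv ℝ φ x (EuclideanSpace.single i 1) =
      - ∫ x, Gm k T μ x (α, i) * φ x := by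
  have c1 : Continuous (fun x => hm k T μ x α) :=
    (PiLp.continuous_apply 2 _ α).comp (continuous_hm T hμ)
  have c2 : Continuous (fun x => Gm k T μ x (α, i)) :=
    (PiLp.continuous_apply 2 _ (α, i)).comp (continuous_Gm hd T hμ)
  have i1 := integrable_mul_deriv c1 hφ hs (EuclideanSpace.single i 1)
  have i2 := integrable_mul c2 hφ hs
  have key : ∫ x, (hm k T μ x α * fderiv ℝ φ x (EuclideanSpace.single i 1) +
      Gm k T μ x (α, i) * φ x) = 0 := by
    revert i1 i2 c2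
    refine Fin.addCases (fun j => ?_) (fun j => ?_) i
    · intro _ _ _
      refine int_zero _ fun y => ?_
      set ψ : RE m → ℝ := fun x => φ ((ee m k).symm (x, y)) with hψ
      have hψ1 := slice_smooth hφ y
      have hψ2 := slice_compact hs y
      have hpt : ∀ x : RE m, hm k T μ ((ee m k).symm (x, y)) α *
          fderiv ℝ φ ((ee m k).symm (x, y)) (EuclideanSpace.single (Fin.castAdd k j) 1) +
          Gm k T μ ((ee m k).symm (x, y)) (α, Fin.castAdd k j) * φ ((ee m k).symm (x, y)) =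
          ∑ s, ∑ t, T α s t * (H μ x s t * fderiv ℝ ψ x (EuclideanSpace.single j 1) +
            Fld (2 * μ) μ x s t j * ψ x) := by
        intro x
        rw [Gm_left, ← slice_deriv hφ y x j]
        unfold hm Gf
        simp only [ContinuousLinearEquiv.apply_symm_apply, Finset.sum_mul]
        rw [← Finset.sum_add_distrib]
        refine Finset.sum_congr rfl fun s _ => ?_
        rw [← Finset.sum_add_distrib]
        refine Finset.sum_congr rfl fun t _ => ?_
        rw [hψ]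
        ring
      simp only [hpt]
      have hI : ∀ s t : Fin m, Integrable (fun x => H μ x s t *
          fderiv ℝ ψ x (EuclideanSpace.single j 1) + Fld (2 * μ) μ x s t j * ψ x) ∧
          ∫ x, (H μ x s t * fderiv ℝ ψ x (EuclideanSpace.single j 1) +
            Fld (2 * μ) μ x s t j * ψ x) = 0 := by
        intro s t
        obtain ⟨k1, k2⟩ := id_grad hd hμ s t j ψ hψ1 hψ2
        have k3 : Integrable (fun x => Fld (2 * μ) μ x s t j * ψ x) := by
          have hc : Continuous (fun x => Fld (2 * μ) μ x s t j * ψ x) :=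
            (continuous_Fld hd _ _ (by linarith) _ _ _).mul hψ1.continuous
          exact hc.integrable_of_hasCompactSupport hψ2.mul_left
        refine ⟨k1.add k3, ?_⟩
        rw [integral_add k1 k3, k2]
        ring
      rw [integral_finsetSum _ fun s _ =>
        integrable_finsetSum _ fun t _ => (hI s t).1.const_mul _]
      refine Finset.sum_eq_zero fun s _ => ?_
      rw [integral_finsetSum _ fun t _ => (hI s t).1.const_mul _]
      refine Finset.sum_eq_zero fun t _ => ?_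
      rw [integral_const_mul, (hI s t).2, mul_zero]
    · intro _ _ _
      refine int_zero' _ fun x => ?_
      have hψ1 := slice_smooth' hφ x
      have hψ2 := slice_compact' hs x
      have hpt : ∀ y : RE k, hm k T μ ((ee m k).symm (x, y)) α *
          fderiv ℝ φ ((ee m k).symm (x, y)) (EuclideanSpace.single (Fin.natAdd m j) 1) +
          Gm k T μ ((ee m k).symm (x, y)) (α, Fin.natAdd m j) * φ ((ee m k).symm (x, y)) =
          (∑ s, ∑ t, T α s t * H μ x s t) *
            fderiv ℝ (fun y => φ ((ee m k).symm (x, y))) y (EuclideanSpace.single j 1) := by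
        intro y
        rw [Gm_right, ← slice_deriv' hφ x y j]
        unfold hm
        simp only [ContinuousLinearEquiv.apply_symm_apply, zero_mul, add_zero]
      simp only [hpt]
      rw [integral_const_mul, int_deriv _ hψ1 hψ2 j, mul_zero]
  rw [integral_add i1 i2] at key
  linarith

/-- the weak equation -/
theorem weak_eq {T : Fin n → Fin m → Fin m → ℝ} (hT : IsEig T) (hd : 3 ≤ m) {p μ : ℝ}
    (hp1 : 1 < p) (hμ : 0 < μ)
    (hroot : 2 * (p - 1) * μ ^ 2 + (3 * p - 4 + m) * μ - (2 - p) = 0)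
    (φ : RE (m + k) → RE n) (hφ : ContDiff ℝ ∞ φ) (hs : HasCompactSupport φ) :
    ∫ x, ∑ α : Fin n, ∑ i : Fin (m + k),
      (‖Gm k T μ x‖ ^ (p - 2) • Gm k T μ x) (α, i) *
        (fderiv ℝ φ x (EuclideanSpace.single i 1)) α = 0 := by
  have hφα : ∀ α, ContDiff ℝ ∞ (fun y => φ y α) := fun α => (contDiff_euclidean.1 hφ) α
  have hsα : ∀ α, HasCompactSupport (fun y => φ y α) := fun α =>
    hs.comp_left (g := fun z : RE n => z α) (by simp)
  have hfd : ∀ (x : RE (m + k)) (α : Fin n) (i : Fin (m + k)),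
      (fderiv ℝ φ x (EuclideanSpace.single i 1)) α =
        fderiv ℝ (fun y => φ y α) x (EuclideanSpace.single i 1) := by
    intro x α i
    have hφx : DifferentiableAt ℝ φ x := (hφ.differentiable (by simp)) x
    have h1 : HasFDerivAt (fun y => φ y α)
        ((EuclideanSpace.proj α : RE n →L[ℝ] ℝ).comp (fderiv ℝ φ x)) x :=
      (EuclideanSpace.proj α : RE n →L[ℝ] ℝ).hasFDerivAt.comp x hφx.hasFDerivAt
    rw [h1.fderiv]
    rfl
  refine int_zero _ fun y => ?_
  have hpt : ∀ x : RE m, (∑ α : Fin n, ∑ i : Fin (m + k),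
      (‖Gm k T μ ((ee m k).symm (x, y))‖ ^ (p - 2) • Gm k T μ ((ee m k).symm (x, y))) (α, i) *
        (fderiv ℝ φ ((ee m k).symm (x, y)) (EuclideanSpace.single i 1)) α) =
      ∑ α : Fin n, ∑ s, ∑ t, ((Kc m μ) ^ ((p - 2) / 2) * T α s t) *
        ∑ j : Fin m, Fld (2 * μ) (μ + (μ + 1 / 2) * (p - 2)) x s t j *
          fderiv ℝ (fun x => φ ((ee m k).symm (x, y)) α) x (EuclideanSpace.single j 1) := by
    intro x
    refine Finset.sum_congr rfl fun α _ => ?_
    rw [Fin.sum_univ_add]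
    have h0 : ∀ j : Fin k, (‖Gm k T μ ((ee m k).symm (x, y))‖ ^ (p - 2) •
        Gm k T μ ((ee m k).symm (x, y))) (α, Fin.natAdd m j) *
        (fderiv ℝ φ ((ee m k).symm (x, y)) (EuclideanSpace.single (Fin.natAdd m j) 1)) α = 0 := by
      intro j
      rw [PiLp.smul_apply, Gm_right, smul_zero, zero_mul]
    rw [Finset.sum_congr rfl fun j _ => h0 j, Finset.sum_const_zero, add_zero]
    have h1 : ∀ j : Fin m, (‖Gm k T μ ((ee m k).symm (x, y))‖ ^ (p - 2) •
        Gm k T μ ((ee m k).symm (x, y))) (α, Fin.castAdd k j) *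
        (fderiv ℝ φ ((ee m k).symm (x, y)) (EuclideanSpace.single (Fin.castAdd k j) 1)) α =
        ∑ s, ∑ t, ((Kc m μ) ^ ((p - 2) / 2) * T α s t) *
          (Fld (2 * μ) (μ + (μ + 1 / 2) * (p - 2)) x s t j *
            fderiv ℝ (fun x => φ ((ee m k).symm (x, y)) α) x (EuclideanSpace.single j 1)) := by
      intro j
      rw [PiLp.smul_apply, smul_eq_mul, A_Gm hT hd hμ, hfd, ← slice_deriv (hφα α) y x j,
        ContinuousLinearEquiv.apply_symm_apply]
      unfold Gf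
      rw [Finset.mul_sum, Finset.sum_mul]
      refine Finset.sum_congr rfl fun s _ => ?_
      rw [Finset.mul_sum, Finset.sum_mul]
      refine Finset.sum_congr rfl fun t _ => ?_
      ring
    rw [Finset.sum_congr rfl fun j _ => h1 j, Finset.sum_comm]
    refine Finset.sum_congr rfl fun s _ => ?_
    rw [Finset.sum_comm]
    refine Finset.sum_congr rfl fun t _ => ?_
    rw [← Finset.mul_sum]
  simp only [hpt]
  have hI : ∀ (α : Fin n) (s t : Fin m), _ := fun α s t =>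
    id_div hd hp1 hμ hroot s t (fun x => φ ((ee m k).symm (x, y)) α)
      (slice_smooth (hφα α) y) (slice_compact (hsα α) y)
  rw [integral_finsetSum _ fun α _ => integrable_finsetSum _ fun s _ =>
    integrable_finsetSum _ fun t _ => (hI α s t).1.const_mul _]
  refine Finset.sum_eq_zero fun α _ => ?_
  rw [integral_finsetSum _ fun s _ =>
    integrable_finsetSum _ fun t _ => (hI α s t).1.const_mul _]
  refine Finset.sum_eq_zero fun s _ => ?_
  rw [integral_finsetSum _ fun t _ => (hI α s t).1.const_mul _]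
  refine Finset.sum_eq_zero fun t _ => ?_
  rw [integral_const_mul, (hI α s t).2, mul_zero]

end Pool.Agent.Y131.PH
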