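import Mathlib
import Pool.Agent.Y131.PH.Map

/-!
Mean oscillation, and failure of Hölder regularity, for odd homogeneous fields on `ℝ^(m+k)` which
depend on the first `m` coordinates only.
-/

set_option autoImplicit false

namespace Pool.Agent.Y131.PH

open MeasureTheory Set Filter Topology
open scoped Pointwise

variable {m k n : ℕ}

/-- the mean oscillation `(⨍_S |f - ⟨f⟩_S|^2)^(1/2)`. -/
noncomputable def osc {d n : ℕ} (f : RE d → Mat n d) (S : Set (RE d)) : ℝ :=
  Real.sqrt (⨍ x in S, ‖f x - ⨍ y in S, f y‖ ^ 2)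

theorem average_translate {d : ℕ} {F : Type*} [NormedAddCommGroup F] [NormedSpace ℝ F]
    {g : RE d → F} {z : RE d} (hg : ∀ x, g (z + x) = g x) (r : ℝ) :
    ⨍ x in Metric.ball z r, g x = ⨍ x in Metric.ball (0 : RE d) r, g x := by
  have hm := measurePreserving_add_left (volume : Measure (RE d)) z
  have h1 := hm.setIntegral_preimage_emb (MeasurableEquiv.addLeft z).measurableEmbedding g
    (Metric.ball z r)
  have hpre : ((fun x => z + x) ⁻¹' Metric.ball z r) = Metric.ball (0 : RE d) r := by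
    ext x
    simp
  rw [hpre] at h1
  simp only [hg] at h1
  rw [setAverage_eq, setAverage_eq, ← h1]
  congr 2
  simp only [Measure.real]
  rw [Measure.addHaar_ball_center]

theorem osc_translate {d : ℕ} {f : RE d → Mat n d} {z : RE d}
    (hf : ∀ x, f (z + x) = f x) (r : ℝ) :
    osc f (Metric.ball z r) = osc f (Metric.ball (0 : RE d) r) := by
  unfold osc
  rw [average_translate hf r,
    average_translate (g := fun x => ‖f x - ⨍ y in Metric.ball (0 : RE d) r, f y‖ ^ 2)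
      (fun x => by rw [hf]) r]

theorem integral_ball_odd {d : ℕ} (f : RE d → Mat n d) (hf : ∀ x, f (-x) = - f x) (r : ℝ) :
    ∫ x in Metric.ball (0 : RE d) r, f x = 0 := by
  have h1 : ∫ x in Metric.ball (0 : RE d) r, f x = ∫ x in Metric.ball (0 : RE d) r, f (-x) := by
    have hm := (Measure.measurePreserving_neg (volume : Measure (RE d)))
    have := hm.setIntegral_preimage_emb (MeasurableEquiv.neg (RE d)).measurableEmbedding f
      (Metric.ball (0 : RE d) r)
    have hpre : (Neg.neg ⁻¹' Metric.ball (0 : RE d) r) = Metric.ball (0 : RE d) r := by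
      ext x; simp
    rw [← this, hpre]
  simp only [hf, integral_neg] at h1
  have h2 : (2 : ℝ) • ∫ x in Metric.ball (0 : RE d) r, f x = 0 := by
    rw [two_smul]
    nth_rewrite 1 [h1]
    simp
  rcases smul_eq_zero.1 h2 with h | h
  · norm_num at h
  · exact h

theorem ee_smul_fst (r : ℝ) (x : RE (m + k)) : (ee m k (r • x)).1 = r • (ee m k x).1 := by
  rw [map_smul, Prod.smul_fst]

theorem osc_ball (hm : 0 < m) {B σ : ℝ} (hσ0 : 0 < σ)
    (f : RE (m + k) → Mat n (m + k)) (hf : ∀ x, ‖f x‖ = B * ‖(ee m k x).1‖ ^ σ)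
    (hodd : ∀ x, f (-x) = - f x) {r : ℝ} (hr : 0 < r) :
    osc f (Metric.ball (0 : RE (m + k)) r) =
      r ^ σ * osc f (Metric.ball (0 : RE (m + k)) 1) := by
  have hne : Nonempty (Fin (m + k)) := ⟨⟨0, by omega⟩⟩
  have key : ∀ s : ℝ, osc f (Metric.ball (0 : RE (m + k)) s)
      = Real.sqrt ((volume.real (Metric.ball (0 : RE (m + k)) s))⁻¹ *
          ∫ x in Metric.ball (0 : RE (m + k)) s, (B * ‖(ee m k x).1‖ ^ σ) ^ 2) := by
    intro s
    unfold osc
    have hav : (⨍ y in Metric.ball (0 : RE (m + k)) s, f y) = 0 := by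
      rw [setAverage_eq, integral_ball_odd f hodd s, smul_zero]
    simp only [hav, sub_zero, hf]
    rw [setAverage_eq, smul_eq_mul]
  rw [key r, key 1]
  have hball : r • Metric.ball (0 : RE (m + k)) 1 = Metric.ball (0 : RE (m + k)) r := by
    rw [smul_unitBall_of_pos hr]
  have hint := Measure.setIntegral_comp_smul_of_pos (volume : Measure (RE (m + k)))
    (fun x => (B * ‖(ee m k x).1‖ ^ σ) ^ 2) (Metric.ball (0 : RE (m + k)) 1) hr
  rw [hball] at hint
  have hvol : volume.real (Metric.ball (0 : RE (m + k)) r)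
      = r ^ (Module.finrank ℝ (RE (m + k))) * volume.real (Metric.ball (0 : RE (m + k)) 1) := by
    simp only [Measure.real]
    rw [Measure.addHaar_ball_of_pos _ _ hr, ENNReal.toReal_mul,
      ENNReal.toReal_ofReal (by positivity)]
  have hsc : ∀ x : RE (m + k), (B * ‖(ee m k (r • x)).1‖ ^ σ) ^ 2 =
      (r ^ σ) ^ 2 * (B * ‖(ee m k x).1‖ ^ σ) ^ 2 := by
    intro x
    rw [ee_smul_fst, norm_smul, Real.norm_of_nonneg hr.le, Real.mul_rpow hr.le (norm_nonneg _)]
    ring
  simp only [hsc] at hint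
  rw [integral_const_mul, smul_eq_mul] at hint
  have hrp : 0 < r ^ (Module.finrank ℝ (RE (m + k))) := by positivity
  have hI : ∫ x in Metric.ball (0 : RE (m + k)) r, (B * ‖(ee m k x).1‖ ^ σ) ^ 2
      = r ^ (Module.finrank ℝ (RE (m + k))) * ((r ^ σ) ^ 2 *
        ∫ x in Metric.ball (0 : RE (m + k)) 1, (B * ‖(ee m k x).1‖ ^ σ) ^ 2) := by
    rw [hint]
    field_simp
  rw [hI, hvol]
  have hv1 : 0 < volume.real (Metric.ball (0 : RE (m + k)) 1) := by
    simp only [Measure.real]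
    exact ENNReal.toReal_pos (Metric.isOpen_ball.measure_pos volume ⟨0, by simp⟩).ne'
      measure_ball_lt_top.ne
  have : (r ^ (Module.finrank ℝ (RE (m + k))) *
        volume.real (Metric.ball (0 : RE (m + k)) 1))⁻¹ *
      (r ^ (Module.finrank ℝ (RE (m + k))) * ((r ^ σ) ^ 2 *
        ∫ x in Metric.ball (0 : RE (m + k)) 1, (B * ‖(ee m k x).1‖ ^ σ) ^ 2))
      = (r ^ σ) ^ 2 * ((volume.real (Metric.ball (0 : RE (m + k)) 1))⁻¹ *
        ∫ x in Metric.ball (0 : RE (m + k)) 1, (B * ‖(ee m k x).1‖ ^ σ) ^ 2) := by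
    field_simp
  rw [this, Real.sqrt_mul (by positivity), Real.sqrt_sq (by positivity)]

theorem ee_single_fst (hm : 0 < m) (t : ℝ) :
    ‖(ee m k (t • EuclideanSpace.single (Fin.castAdd k (⟨0, hm⟩ : Fin m)) (1 : ℝ))).1‖ = |t| := by
  have h := ee_symm_single (m := m) (k := k) ⟨0, hm⟩
  rw [← h, ee_smul_fst, ContinuousLinearEquiv.apply_symm_apply, norm_smul]
  simp

theorem osc_one_pos (hm : 0 < m) {B σ : ℝ} (hB : 0 < B) (hσ0 : 0 < σ)
    (f : RE (m + k) → Mat n (m + k)) (hf : ∀ x, ‖f x‖ = B * ‖(ee m k x).1‖ ^ σ)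
    (hodd : ∀ x, f (-x) = - f x) :
    0 < osc f (Metric.ball (0 : RE (m + k)) 1) := by
  unfold osc
  have hav : (⨍ y in Metric.ball (0 : RE (m + k)) 1, f y) = 0 := by
    rw [setAverage_eq, integral_ball_odd f hodd 1, smul_zero]
  simp only [hav, sub_zero, hf]
  rw [setAverage_eq, smul_eq_mul]
  apply Real.sqrt_pos.2
  have hv1 : 0 < volume.real (Metric.ball (0 : RE (m + k)) 1) := by
    simp only [Measure.real]
    exact ENNReal.toReal_pos (Metric.isOpen_ball.measure_pos volume ⟨0, by simp⟩).ne'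
      measure_ball_lt_top.ne
  apply mul_pos (inv_pos.2 hv1)
  have hc0 : Continuous (fun x : RE (m + k) => ‖(ee m k x).1‖) := continuous_fst_ee.norm
  have hc : Continuous (fun x : RE (m + k) => (B * ‖(ee m k x).1‖ ^ σ) ^ 2) := by
    have : Continuous (fun x : RE (m + k) => ‖(ee m k x).1‖ ^ σ) :=
      hc0.rpow_const (fun x => Or.inr hσ0.le)
    fun_prop
  have hint : IntegrableOn (fun x : RE (m + k) => (B * ‖(ee m k x).1‖ ^ σ) ^ 2)
      (Metric.ball (0 : RE (m + k)) 1) :=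
    (hc.continuousOn.integrableOn_compact (isCompact_closedBall (0 : RE (m + k)) 1)).mono_set
      Metric.ball_subset_closedBall
  rw [setIntegral_pos_iff_support_of_nonneg_ae
    (Eventually.of_forall fun x => sq_nonneg _) hint]
  have hopen : IsOpen (Metric.ball (0 : RE (m + k)) 1 ∩ {x | 0 < ‖(ee m k x).1‖}) :=
    Metric.isOpen_ball.inter (isOpen_lt continuous_const hc0)
  have hsup : Metric.ball (0 : RE (m + k)) 1 ∩ {x | 0 < ‖(ee m k x).1‖} ⊆
      (Function.support fun x : RE (m + k) => (B * ‖(ee m k x).1‖ ^ σ) ^ 2) ∩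
        Metric.ball (0 : RE (m + k)) 1 := by
    intro x hx
    have hxn : 0 < ‖(ee m k x).1‖ := hx.2
    refine ⟨?_, hx.1⟩
    have : 0 < (B * ‖(ee m k x).1‖ ^ σ) ^ 2 := by positivity
    exact this.ne'
  refine lt_of_lt_of_le ?_ (measure_mono hsup)
  refine hopen.measure_pos volume
    ⟨(1 / 2 : ℝ) • EuclideanSpace.single (Fin.castAdd k (⟨0, hm⟩ : Fin m)) (1 : ℝ), ?_, ?_⟩
  · rw [mem_ball_zero_iff, norm_smul]
    simp
    norm_num
  · change 0 < ‖(ee m k ((1 / 2 : ℝ) • EuclideanSpace.single (Fin.castAdd k (⟨0, hm⟩ : Fin m))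
      (1 : ℝ))).1‖
    rw [ee_single_fst hm]
    norm_num

/-- no pointwise Hölder estimate with exponent above `σ` at the points of the axis -/
theorem not_holder (hm : 0 < m) {B σ α C : ℝ} (hB : 0 < B) (hσ0 : 0 < σ) (hσα : σ < α)
    {f : RE (m + k) → Mat n (m + k)} (hfc : Continuous f)
    (hf : ∀ x, ‖f x‖ = B * ‖(ee m k x).1‖ ^ σ) {U : Set (RE (m + k))} (hU : IsOpen U)
    {z : RE (m + k)} (hzU : z ∈ U) (hz : (ee m k z).1 = 0) {W : RE (m + k) → Mat n (m + k)}
    (hW : ContinuousOn W U) (hWf : W =ᵐ[volume.restrict U] f) :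
    ¬ ∀ x ∈ U, ‖W x - W z‖ ≤ C * ‖x - z‖ ^ α := by
  intro hcon
  have heq : EqOn W f U := Measure.eqOn_open_of_ae_eq hWf hU hW hfc.continuousOn
  set e : RE (m + k) := EuclideanSpace.single (Fin.castAdd k (⟨0, hm⟩ : Fin m)) (1 : ℝ) with he
  have hfz : f z = 0 := by
    have := hf z
    rw [hz, norm_zero, Real.zero_rpow hσ0.ne', mul_zero] at this
    exact norm_eq_zero.1 this
  have hpt : ∀ t : ℝ, 0 < t → z + t • e ∈ U → B * t ^ σ ≤ C * t ^ α := by
    intro t ht hmem
    have h1 := hcon _ hmem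
    rw [heq hmem, heq hzU, hfz, sub_zero, hf, map_add, Prod.fst_add, hz, zero_add,
      ee_single_fst hm, abs_of_pos ht, add_sub_cancel_left, norm_smul,
      Real.norm_of_nonneg ht.le] at h1
    have h2 : ‖e‖ = 1 := by
      rw [he]
      simp
    rwa [h2, mul_one] at h1
  have hcont : Continuous (fun t : ℝ => z + t • e) := by fun_prop
  have hev : ∀ᶠ t in 𝓝[>] (0 : ℝ), z + t • e ∈ U := by
    have h1 : ∀ᶠ t in 𝓝 (0 : ℝ), z + t • e ∈ U := by
      apply hcont.tendsto 0
      apply hU.mem_nhds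
      simpa using hzU
    exact h1.filter_mono nhdsWithin_le_nhds
  have hc : Continuous (fun t : ℝ => |C| * |t| ^ (α - σ)) := by
    have : Continuous (fun t : ℝ => |t| ^ (α - σ)) :=
      continuous_abs.rpow_const (fun x => Or.inr (by linarith))
    fun_prop
  have hev2 : ∀ᶠ t in 𝓝[>] (0 : ℝ), |C| * |t| ^ (α - σ) < B := by
    have h2 := hc.tendsto 0
    have h3 : (α - σ) ≠ 0 := by linarith
    simp only [abs_zero, Real.zero_rpow h3, mul_zero] at h2
    exact (h2.mono_left nhdsWithin_le_nhds).eventually (gt_mem_nhds hB)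
  have hev3 : ∀ᶠ t in 𝓝[>] (0 : ℝ), 0 < t := eventually_mem_nhdsWithin
  obtain ⟨t, h1, h2, h3⟩ := (hev.and (hev2.and hev3)).exists
  have h4 := hpt t h3 h1
  rw [abs_of_pos h3] at h2
  have hts : 0 < t ^ σ := Real.rpow_pos_of_pos h3 σ
  have e1 : t ^ α = t ^ (α - σ) * t ^ σ := by
    rw [← Real.rpow_add h3]; congr 1; ring
  have h5 : C * t ^ α ≤ |C| * t ^ (α - σ) * t ^ σ := by
    rw [e1, mul_assoc]
    exact mul_le_mul_of_nonneg_right (le_abs_self C) (by positivity)
  have h6 := mul_lt_mul_of_pos_right h2 hts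
  linarith

theorem not_C1 (hm : 0 < m) {B σ : ℝ} (hB : 0 < B) (hσ0 : 0 < σ) (hσ1 : σ < 1)
    {f : RE (m + k) → Mat n (m + k)} (hfc : Continuous f)
    (hf : ∀ x, ‖f x‖ = B * ‖(ee m k x).1‖ ^ σ) {U : Set (RE (m + k))} (hU : IsOpen U)
    {z : RE (m + k)} (hzU : z ∈ U) (hz : (ee m k z).1 = 0) :
    ¬ ∃ W : RE (m + k) → Mat n (m + k), ContDiffOn ℝ 1 W U ∧ W =ᵐ[volume.restrict U] f := by
  rintro ⟨W, hW, hWf⟩
  have hdiff : DifferentiableAt ℝ W z :=
    (hW.differentiableOn (by norm_num)).differentiableAt (hU.mem_nhds hzU)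
  obtain ⟨K, hK⟩ := hdiff.hasFDerivAt.isBigO_sub.bound
  obtain ⟨O, hO, hOo, hOz⟩ := mem_nhds_iff.1 (inter_mem hK (hU.mem_nhds hzU))
  have hOU : O ⊆ U := fun x hx => (hO hx).2
  refine not_holder (C := K) hm hB hσ0 hσ1 hfc hf hOo hOz hz (hW.continuousOn.mono hOU)
    (ae_restrict_of_ae_restrict_of_subset hOU hWf) ?_
  intro x hx
  rw [Real.rpow_one]
  exact (hO hx).1

end Pool.Agent.Y131.PH
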